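import Pool.Agent.helper82.Disc.Defs

/-! Modules C1 and C2 of project DISC: transport of structures, bijectivity. -/

set_option autoImplicit false

namespace Pool.Agent.helper82.Disc

open Finset

section generic
variable {F : Type} [Field F] [Fintype F] [DecidableEq F]

omit [Fintype F] in
theorem C_sel_mem {s : F} {R : Finset F} {c : ℝ} (hc : c ∈ Set.Icc (0 : ℝ) 1) (a : F) :
    sel s R c a ∈ Set.Icc (0 : ℝ) 1 := by
  unfold sel
  split_ifs
  · exact hc
  · exact ⟨zero_le_one, le_rfl⟩
  · exact ⟨le_rfl, zero_le_one⟩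

omit [Fintype F] in
/-- scaling of `sel` by an injective affine map -/
theorem C_sel_image {s a s' a' x : F} (hx : x ≠ 0) (h : a' - s' = x * (a - s)) (R : Finset F) (c c' : ℝ)
    (hc : a = s → c' = c) :
    sel s' (R.image (fun δ => x * δ)) c' a' = sel s R c a := by
  unfold sel
  by_cases h1 : a = s
  · have h2 : a' = s' := by
      rw [h1, sub_self, mul_zero] at h
      exact sub_eq_zero.mp h
    rw [if_pos h1, if_pos h2, hc h1]
  · have h2 : a' ≠ s' := by
      intro h2
      rw [h2, sub_self] at h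
      rcases mul_eq_zero.mp h.symm with h3 | h3
      · exact hx h3
      · exact h1 (sub_eq_zero.mp h3)
    rw [if_neg h1, if_neg h2, h]
    have h3 : x * (a - s) ∈ R.image (fun δ => x * δ) ↔ a - s ∈ R := by
      constructor
      · intro h3
        obtain ⟨δ, hδ, he⟩ := Finset.mem_image.mp h3
        have h4 : δ = a - s := mul_left_cancel₀ hx he
        rw [← h4]; exact hδ
      · intro h3
        exact Finset.mem_image_of_mem _ h3
    by_cases h4 : a - s ∈ R
    · rw [if_pos h4, if_pos (h3.mpr h4)]
    · rw [if_neg h4, if_neg (fun h5 => h4 (h3.mp h5))]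

omit [Fintype F] [DecidableEq F] in
theorem C_nxt_zero {k : ℕ} (e : F) (m : Fin (k + 2) → Fˣ) (v : Fin (k + 2) → F) :
    nxt e m v 0 = e + (m 0 : F) * v 0 := by
  unfold nxt
  congr 1
  rw [Fin.sum_univ_succ]
  simp

omit [Fintype F] [DecidableEq F] in
theorem C_nxt_tail {k : ℕ} (e : F) (m : Fin (k + 2) → Fˣ) (v : Fin (k + 2) → F) :
    Fin.tail (nxt e m v) = nxt (e + (m 0 : F) * v 0) (Fin.tail m) (Fin.tail v) := by
  funext j
  unfold nxt Fin.tail
  beta_reduce
  conv_lhs => rw [Fin.sum_univ_succ]
  simp only [Fin.val_zero, zero_le, if_true, Fin.val_succ, add_le_add_iff_right]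
  ring

omit [Fintype F] [DecidableEq F] in
theorem C_ydig_succ {k : ℕ} (e : F) (m : Fin (k + 1) → Fˣ) (v : Fin (k + 1) → F) :
    ydig e m v = ydig (e + (m 0 : F) * v 0) (Fin.tail m) (Fin.tail v) := by
  unfold ydig Fin.tail
  rw [Fin.sum_univ_succ]
  ring

omit [Fintype F] [DecidableEq F] in
theorem C_inv_mul {x : Fˣ} {a b : F} (h : a = (x : F) * b) : ((x⁻¹ : Fˣ) : F) * a = b := by
  rw [h, ← mul_assoc, Units.inv_mul, one_mul]

omit [Fintype F] in
theorem C_left : ∀ (k : ℕ) (u : Fin (k + 1) → F) (L : Fin (k + 1) → Finset F) (cL : ℝ) (e : F)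
    (m : Fin (k + 1) → Fˣ) (w : F) (v : Fin (k + 1) → F), ydig e m v = w →
    left k (nxt e m u) (fun j => (L j.castSucc).image (fun δ => (m j.castSucc : F) * δ))
      (sel (u (Fin.last k)) (L (Fin.last k)) cL
        (((m (Fin.last k))⁻¹ : Fˣ) * (w - (e + ∑ i : Fin k, (m i.castSucc : F) * u i.castSucc))))
      (nxt e m v) = left (k + 1) u L cL v := by
  intro k
  induction k with
  | zero =>
    intro u L cL e m w v hv
    unfold ydig at hv
    simp only [left, Fin.isValue]
    congr 1
    apply C_inv_mul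
    rw [← hv]
    simp
  | succ k ih =>
    intro u L cL e m w v hv
    by_cases h : v 0 = u 0
    · have hv' := hv
      rw [C_ydig_succ] at hv'
      have h1 := ih (Fin.tail u) (Fin.tail L) cL (e + (m 0 : F) * v 0) (Fin.tail m) w (Fin.tail v) hv'
      have e1 : (w - (e + ∑ i : Fin (k + 1), (m i.castSucc : F) * u i.castSucc)) =
          (w - ((e + (m 0 : F) * v 0) + ∑ i : Fin k, (Fin.tail m i.castSucc : F) * Fin.tail u i.castSucc)) := by
        rw [Fin.sum_univ_succ, h]
        unfold Fin.tail
        simp only [Fin.castSucc_zero, Fin.castSucc_succ]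
        ring
      rw [e1]
      conv_lhs => unfold left
      conv_rhs => unfold left
      rw [C_nxt_zero, C_nxt_zero, h]
      unfold sel
      rw [if_pos rfl, if_pos rfl, C_nxt_tail, C_nxt_tail, h]
      rw [h] at h1
      exact h1
    · conv_lhs => unfold left
      conv_rhs => unfold left
      apply C_sel_image (Units.ne_zero (m 0))
      · rw [C_nxt_zero, C_nxt_zero]; ring
      · intro h'; exact absurd h' h

/-- the next string computed from the end -/
def C_bwd {k : ℕ} (w : F) (m : Fin (k + 1) → Fˣ) (v : Fin (k + 1) → F) : Fin k → F :=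
  fun j => w - ∑ i : Fin (k + 1), if j.val < i.val then (m i : F) * v i else 0

omit [Fintype F] [DecidableEq F] in
theorem C_nxt_eq_bwd {k : ℕ} (e w : F) (m : Fin (k + 1) → Fˣ) (v : Fin (k + 1) → F) (h : ydig e m v = w) :
    nxt e m v = C_bwd w m v := by
  funext j
  unfold nxt C_bwd
  rw [← h]
  unfold ydig
  rw [add_sub_assoc, ← Finset.sum_sub_distrib]
  congr 1
  apply Finset.sum_congr rfl
  intro i _
  by_cases h1 : i.val ≤ j.val
  · rw [if_pos h1, if_neg (by omega)]; ring
  · rw [if_neg h1, if_pos (by omega)]; ring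

omit [Fintype F] [DecidableEq F] in
theorem C_bwd_last {k : ℕ} (w : F) (m : Fin (k + 2) → Fˣ) (v : Fin (k + 2) → F) :
    C_bwd w m v (Fin.last k) = w - (m (Fin.last (k + 1)) : F) * v (Fin.last (k + 1)) := by
  unfold C_bwd
  congr 1
  rw [Fin.sum_univ_castSucc]
  have : ∀ i : Fin (k + 1), ¬ (Fin.last k).val < (Fin.castSucc i).val := by
    intro i
    simp only [Fin.val_last, Fin.val_castSucc]
    have := i.isLt
    omega
  simp only [this, if_false, Finset.sum_const_zero, zero_add]
  rw [if_pos (by simp)]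

omit [Fintype F] [DecidableEq F] in
theorem C_bwd_init {k : ℕ} (w : F) (m : Fin (k + 2) → Fˣ) (v : Fin (k + 2) → F) :
    Fin.init (C_bwd w m v) =
      C_bwd (w - (m (Fin.last (k + 1)) : F) * v (Fin.last (k + 1))) (Fin.init m) (Fin.init v) := by
  funext j
  unfold C_bwd Fin.init
  beta_reduce
  conv_lhs => rw [Fin.sum_univ_castSucc]
  simp only [Fin.val_castSucc, Fin.val_last]
  rw [if_pos (by have := j.isLt; omega)]
  ring

omit [Fintype F] [DecidableEq F] in
theorem C_ydig_last {k : ℕ} (e w : F) (m : Fin (k + 1) → Fˣ) (v : Fin (k + 1) → F) (h : ydig e m v = w) :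
    ydig e (Fin.init m) (Fin.init v) = w - (m (Fin.last k) : F) * v (Fin.last k) := by
  rw [← h]
  unfold ydig Fin.init
  rw [Fin.sum_univ_castSucc (fun j => (m j : F) * v j)]
  ring

omit [Fintype F] in
theorem C_right : ∀ (k : ℕ) (s : Fin (k + 1) → F) (R : Fin (k + 1) → Finset F) (cR : ℝ) (e : F)
    (m : Fin (k + 1) → Fˣ) (w : F) (v : Fin (k + 1) → F), ydig e m v = w →
    right k (C_bwd w m s) (fun j => (R j.succ).image (fun δ => -(m j.succ : F) * δ))
      (sel (s 0) (R 0) cR
        (((m 0)⁻¹ : Fˣ) * (w - ∑ i : Fin k, (m i.succ : F) * s i.succ - e)))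
      (C_bwd w m v) = right (k + 1) s R cR v := by
  intro k
  induction k with
  | zero =>
    intro s R cR e m w v hv
    unfold ydig at hv
    simp only [right, Fin.isValue]
    have : Fin.last 0 = 0 := rfl
    rw [this]
    congr 1
    apply C_inv_mul
    rw [← hv]
    simp
  | succ k ih =>
    intro s R cR e m w v hv
    by_cases h : v (Fin.last (k + 1)) = s (Fin.last (k + 1))
    · have hv' := C_ydig_last e w m v hv
      have h1 := ih (Fin.init s) (Fin.init R) cR e (Fin.init m)
        (w - (m (Fin.last (k + 1)) : F) * v (Fin.last (k + 1))) (Fin.init v) hv'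
      have e1 : (w - ∑ i : Fin (k + 1), (m i.succ : F) * s i.succ - e) =
          (w - (m (Fin.last (k + 1)) : F) * v (Fin.last (k + 1)) -
            ∑ i : Fin k, (Fin.init m i.succ : F) * Fin.init s i.succ - e) := by
        rw [Fin.sum_univ_castSucc, h]
        unfold Fin.init
        simp only [Fin.succ_castSucc, Fin.succ_last]
        ring
      rw [e1]
      conv_lhs => unfold right
      conv_rhs => unfold right
      rw [C_bwd_last, C_bwd_last, h]
      unfold sel
      rw [if_pos rfl, if_pos rfl, C_bwd_init, C_bwd_init, h]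
      rw [h] at h1
      exact h1
    · conv_lhs => unfold right
      conv_rhs => unfold right
      have h0 : -(m (Fin.last (k + 1)) : F) ≠ 0 := neg_ne_zero.mpr (Units.ne_zero _)
      apply C_sel_image h0
      · rw [C_bwd_last, C_bwd_last]; ring
      · intro h'; exact absurd h' h

theorem transport_good {k : ℕ} (S : Str F (k + 1)) (hS : S.Good) (e : F)
    (m : Fin (k + 1) → Fˣ) (w : F) : (S.transport e m w).Good := by
  refine ⟨?_, ?_, ?_, ?_⟩
  · intro j h
    obtain ⟨δ, hδ, h0⟩ := Finset.mem_image.mp h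
    rcases mul_eq_zero.mp h0 with h1 | h1
    · exact Units.ne_zero _ h1
    · exact hS.hL _ (h1 ▸ hδ)
  · intro j h
    obtain ⟨δ, hδ, h0⟩ := Finset.mem_image.mp h
    rcases mul_eq_zero.mp h0 with h1 | h1
    · exact Units.ne_zero _ (neg_eq_zero.mp h1)
    · exact hS.hR _ (h1 ▸ hδ)
  · exact C_sel_mem hS.hcL _
  · exact C_sel_mem hS.hcR _

theorem transport_beta {k : ℕ} (S : Str F (k + 1)) (hS : S.Good) (e : F)
    (m : Fin (k + 1) → Fˣ) (w : F) (v : Fin (k + 1) → F) (hv : ydig e m v = w) :
    (S.transport e m w).beta (nxt e m v) = S.beta v := by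
  unfold Str.beta
  congr 1
  · exact C_left k S.u S.L S.cL e m w v hv
  · rw [C_nxt_eq_bwd e w m v hv]
    exact C_right k S.s S.R S.cR e m w v hv

omit [DecidableEq F] [Fintype F] in
theorem C_nxt_inj : ∀ (k : ℕ) (e : F) (m : Fin (k + 1) → Fˣ) (v v' : Fin (k + 1) → F),
    ydig e m v = ydig e m v' → nxt e m v = nxt e m v' → v = v' := by
  intro k
  induction k with
  | zero =>
    intro e m v v' h1 _
    unfold ydig at h1
    rw [Fin.sum_univ_succ, Fin.sum_univ_succ] at h1
    simp only [Finset.univ_eq_empty, Finset.sum_empty, add_zero, add_right_inj] at h1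
    funext j
    rw [Subsingleton.elim (α := Fin 1) j 0]
    exact mul_left_cancel₀ (Units.ne_zero (m 0)) h1
  | succ k ih =>
    intro e m v v' h1 h2
    have h3 := congrFun h2 0
    rw [C_nxt_zero, C_nxt_zero, add_right_inj] at h3
    have h4 : v 0 = v' 0 := mul_left_cancel₀ (Units.ne_zero (m 0)) h3
    have h5 := congrArg Fin.tail h2
    rw [C_nxt_tail, C_nxt_tail, h4] at h5
    rw [C_ydig_succ e m v, C_ydig_succ e m v', h4] at h1
    have h6 := ih _ _ _ _ h1 h5
    rw [← Fin.cons_self_tail v, ← Fin.cons_self_tail v', h4, h6]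

theorem nxt_bij {k : ℕ} (e : F) (m : Fin (k + 1) → Fˣ) :
    Function.Bijective (fun v : Fin (k + 1) → F => (ydig e m v, nxt e m v)) := by
  rw [Fintype.bijective_iff_injective_and_card]
  constructor
  · intro v v' h
    exact C_nxt_inj k e m v v' (congrArg Prod.fst h) (congrArg Prod.snd h)
  · simp [pow_succ, mul_comm]

end generic

section digits
variable {b : ℕ} [Fact b.Prime]

theorem Y_bij (k : ℕ) (P : Params (ZMod b) k) : Function.Bijective (Y k P) := by
  have hinj : Function.Injective (Y k P) := by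
    induction k with
    | zero => intro v v' _; exact Subsingleton.elim _ _
    | succ k ih =>
      intro v v' h
      unfold Y at h
      obtain ⟨h1, h2⟩ := Fin.cons_injective2 h
      exact C_nxt_inj k _ _ v v' h1 (ih P.2 h2)
  exact ⟨hinj, Finite.surjective_of_injective hinj⟩

end digits

end Pool.Agent.helper82.Disc
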