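import Pool.Agent.helper82.Disc.Defs

/-! Module K of project DISC: one infinite sequence from blocks of length `2^(2^(l+1))`. -/

set_option autoImplicit false

namespace Pool.Agent.helper82.Disc
open Finset

/-- block lengths -/
def K_M (l : ℕ) : ℕ := 2 ^ (2 ^ (l + 1))

/-- start of the block `l` -/
def K_T : ℕ → ℕ
  | 0 => 0
  | l + 1 => K_T l + K_M l

theorem K_M_pos (l : ℕ) : 4 ≤ K_M l := by
  unfold K_M
  calc 4 = 2 ^ 2 := by norm_num
    _ ≤ 2 ^ (2 ^ (l + 1)) := by
      apply Nat.pow_le_pow_right (by norm_num)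
      calc 2 = 2 ^ 1 := by norm_num
        _ ≤ 2 ^ (l + 1) := Nat.pow_le_pow_right (by norm_num) (by omega)

theorem K_M_succ (l : ℕ) : K_M (l + 1) = K_M l * K_M l := by
  unfold K_M
  rw [← pow_add]
  congr 1
  ring

theorem K_T_le (l : ℕ) : K_T (l + 1) ≤ 2 * K_M l := by
  induction l with
  | zero => simp [K_T]; omega
  | succ l ih =>
    have h1 : K_T (l + 1 + 1) = K_T (l + 1) + K_M (l + 1) := rfl
    have h2 := K_M_succ l
    have h3 := K_M_pos l
    have h4 : 4 * K_M l ≤ K_M l * K_M l := Nat.mul_le_mul_right _ h3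
    omega

theorem K_T_ge (l : ℕ) : K_M l ≤ K_T (l + 1) := by
  have h1 : K_T (l + 1) = K_T l + K_M l := rfl
  omega

theorem K_T_lt (l : ℕ) : K_T l < K_T (l + 1) := by
  have h1 : K_T (l + 1) = K_T l + K_M l := rfl
  have := K_M_pos l
  omega

theorem K_T_mono : StrictMono K_T := strictMono_nat_of_lt_succ K_T_lt

/-- block of an index -/
def K_blk (i : ℕ) : ℕ := Nat.findGreatest (fun l => K_T l ≤ i) i

theorem K_blk_eq {l i : ℕ} (h1 : K_T l ≤ i) (h2 : i < K_T (l + 1)) : K_blk i = l := by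
  unfold K_blk
  rw [Nat.findGreatest_eq_iff]
  refine ⟨?_, fun _ => h1, ?_⟩
  · exact (K_T_mono.le_apply).trans h1
  · intro n hn _ hn'
    have := K_T_mono.monotone (Nat.succ_le_of_lt hn)
    simp only [Nat.succ_eq_add_one] at this
    omega

theorem K_exists (i : ℕ) : ∃ l, K_T l ≤ i ∧ i < K_T (l + 1) := by
  induction i with
  | zero => exact ⟨0, le_rfl, K_T_lt 0⟩
  | succ i ih =>
    obtain ⟨l, h1, h2⟩ := ih
    by_cases h : i + 1 < K_T (l + 1)
    · exact ⟨l, by omega, h⟩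
    · refine ⟨l + 1, by omega, ?_⟩
      have := K_T_lt (l + 1)
      omega

theorem K_logM (l : ℕ) : Real.log (K_M l) = 2 ^ (l + 1) * Real.log 2 := by
  unfold K_M
  push_cast
  rw [Real.log_pow]
  push_cast
  rfl

theorem K_loglogM (l : ℕ) : ((l : ℝ) + 1) / 5 ≤ Real.log (Real.log (K_M l)) := by
  rw [K_logM, Real.log_mul (by positivity) (Real.log_pos (by norm_num)).ne', Real.log_pow]
  have h1 := Real.log_two_gt_d9
  have h2 : 1 - (Real.log 2)⁻¹ ≤ Real.log (Real.log 2) :=
    Real.one_sub_inv_le_log_of_pos (Real.log_pos (by norm_num))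
  have h3 : (Real.log 2)⁻¹ ≤ 1.45 := by
    rw [inv_le_comm₀ (Real.log_pos (by norm_num)) (by norm_num)]
    norm_num
    linarith
  push_cast
  have h4 : (0 : ℝ) ≤ l := Nat.cast_nonneg l
  nlinarith

/-- the growth function of the blocks -/
noncomputable def K_a (l : ℕ) : ℝ := 4 ^ (l + 1) / ((l : ℝ) + 1) ^ 2

theorem K_a_pos (l : ℕ) : 0 < K_a l := by unfold K_a; positivity

theorem K_gM (l : ℕ) : (Real.log (K_M l) / Real.log (Real.log (K_M l))) ^ 2 ≤ 25 * K_a l := by
  have h1 := K_loglogM l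
  have h4 : (0 : ℝ) ≤ l := Nat.cast_nonneg l
  have h2 : (0 : ℝ) < ((l : ℝ) + 1) / 5 := by positivity
  have h3 : Real.log (K_M l) / Real.log (Real.log (K_M l)) ≤ 2 ^ (l + 1) / (((l : ℝ) + 1) / 5) := by
    apply div_le_div₀ (by positivity) _ h2 h1
    rw [K_logM]
    have := Real.log_two_lt_d9
    calc (2 : ℝ) ^ (l + 1) * Real.log 2 ≤ 2 ^ (l + 1) * 1 := by
          apply mul_le_mul_of_nonneg_left _ (by positivity)
          linarith
      _ = _ := mul_one _
  have h0 : 0 ≤ Real.log (K_M l) / Real.log (Real.log (K_M l)) := by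
    apply div_nonneg
    · exact Real.log_nonneg (by exact_mod_cast (le_trans (by norm_num) (K_M_pos l)))
    · exact (h2.trans_le h1).le
  calc (Real.log (K_M l) / Real.log (Real.log (K_M l))) ^ 2 ≤ (2 ^ (l + 1) / (((l : ℝ) + 1) / 5)) ^ 2 :=
        pow_le_pow_left₀ h0 h3 2
    _ = 25 * K_a l := by
        unfold K_a
        have : (4 : ℝ) ^ (l + 1) = (2 ^ (l + 1)) ^ 2 := by
          rw [← pow_mul, mul_comm, pow_mul]; norm_num
        rw [this]
        field_simp
        norm_num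

theorem K_sum (j : ℕ) : ∑ l ∈ Finset.range (j + 1), K_a l ≤ 4 * K_a j := by
  induction j with
  | zero => norm_num [K_a]
  | succ j ih =>
    rw [Finset.sum_range_succ]
    rcases Nat.eq_zero_or_pos j with rfl | hj
    · norm_num [K_a]
    · have h1 : K_a j ≤ 3 / 4 * K_a (j + 1) := by
        unfold K_a
        have hj' : (1 : ℝ) ≤ j := by exact_mod_cast hj
        rw [pow_succ (4 : ℝ) (j + 1)]
        push_cast
        have e1 : (3 : ℝ) / 4 * (4 ^ (j + 1) * 4 / ((j : ℝ) + 1 + 1) ^ 2) =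
            4 ^ (j + 1) * (3 / ((j : ℝ) + 1 + 1) ^ 2) := by ring
        have e2 : (4 : ℝ) ^ (j + 1) / ((j : ℝ) + 1) ^ 2 = 4 ^ (j + 1) * (1 / ((j : ℝ) + 1) ^ 2) := by ring
        rw [e1, e2]
        apply mul_le_mul_of_nonneg_left _ (by positivity)
        rw [div_le_div_iff₀ (by positivity) (by positivity)]
        nlinarith
      linarith

theorem K_final {j N : ℕ} (hN : 3 ≤ N) (h1 : K_T j ≤ N) (h2 : N < K_T (j + 1)) :
    K_a j ≤ 64 * (Real.log N / Real.log (Real.log N)) ^ 2 := by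
  have hN' : (3 : ℝ) ≤ N := by exact_mod_cast hN
  have hlog1 : 1 < Real.log N := by
    have h3 : Real.exp 1 < 3 := by have := Real.exp_one_lt_d9; linarith
    rw [Real.lt_log_iff_exp_lt (by linarith)]
    linarith
  have hll : 0 < Real.log (Real.log N) := Real.log_pos hlog1
  rcases Nat.eq_zero_or_pos j with rfl | hj
  · have h3 : 1 ≤ Real.log N / Real.log (Real.log N) := by
      rw [le_div_iff₀ hll, one_mul]
      have := Real.log_le_sub_one_of_pos (by linarith : (0:ℝ) < Real.log N)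
      linarith
    have h4 : (1 : ℝ) ≤ (Real.log N / Real.log (Real.log N)) ^ 2 := one_le_pow₀ h3
    have h5 : K_a 0 = 4 := by unfold K_a; norm_num
    rw [h5]
    linarith
  · obtain ⟨i, rfl⟩ : ∃ i, j = i + 1 := ⟨j - 1, by omega⟩
    have hl2 := Real.log_two_gt_d9
    have hl3 := Real.log_two_lt_d9
    have h3 : (2 : ℝ) ^ (i + 1) * Real.log 2 ≤ Real.log N := by
      rw [← K_logM]
      apply Real.log_le_log (by exact_mod_cast (lt_of_lt_of_le (by norm_num) (K_M_pos i)))
      exact_mod_cast (K_T_ge i).trans h1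
    have h4 : Real.log N ≤ 2 ^ (i + 3) := by
      have h5 : N ≤ 2 * K_M (i + 1) := h2.le.trans (K_T_le (i + 1))
      have h6 : (N : ℝ) ≤ 2 * K_M (i + 1) := by exact_mod_cast h5
      have hpos : (0 : ℝ) < K_M (i + 1) := by exact_mod_cast (lt_of_lt_of_le (by norm_num) (K_M_pos (i + 1)))
      have h7 := Real.log_le_log (by linarith) h6
      rw [Real.log_mul (by norm_num) hpos.ne', K_logM] at h7
      have h8 : (1 : ℝ) ≤ 2 ^ (i + 2) := one_le_pow₀ (by norm_num)
      have e : (2 : ℝ) ^ (i + 3) = 2 * 2 ^ (i + 2) := by ring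
      rw [e]
      have e' : i + 1 + 1 = i + 2 := by ring
      rw [e'] at h7
      nlinarith
    have h5 : Real.log (Real.log N) ≤ 2 * ((i : ℝ) + 2) := by
      have h6 := Real.log_le_log (by linarith) h4
      rw [Real.log_pow] at h6
      push_cast at h6
      have h4 : (0 : ℝ) ≤ i := Nat.cast_nonneg i
      nlinarith
    have h6 : (2 : ℝ) ^ (i + 1) / (4 * ((i : ℝ) + 2)) ≤ Real.log N / Real.log (Real.log N) := by
      have hi : (0 : ℝ) ≤ i := Nat.cast_nonneg i
      calc (2 : ℝ) ^ (i + 1) / (4 * ((i : ℝ) + 2)) = (2 ^ (i + 1) * (1 / 2)) / (2 * ((i : ℝ) + 2)) := by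
            field_simp; ring
        _ ≤ Real.log N / Real.log (Real.log N) := by
            apply div_le_div₀ (by linarith) _ hll h5
            refine le_trans ?_ h3
            apply mul_le_mul_of_nonneg_left _ (by positivity)
            linarith
    have h7 := pow_le_pow_left₀ (by positivity) h6 2
    have e1 : K_a (i + 1) = 64 * (2 ^ (i + 1) / (4 * ((i : ℝ) + 2))) ^ 2 := by
      unfold K_a
      push_cast
      have : (4 : ℝ) ^ (i + 1 + 1) = 4 * (2 ^ (i + 1)) ^ 2 := by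
        rw [← pow_mul, mul_comm (i + 1), pow_mul]; norm_num; ring
      rw [this]
      field_simp
      ring
    rw [e1]
    linarith

/-- one infinite sequence (file Seq.lean) -/
theorem one_seq_of
    (hall_M : ∃ C : ℝ, 0 < C ∧ ∀ M : ℕ, 3 ≤ M →
      ∃ z : ℕ → ℝ × ℝ, (∀ i, (z i).1 ∈ Set.Ico (0 : ℝ) 1 ∧ (z i).2 ∈ Set.Ico (0 : ℝ) 1) ∧
      ∀ k ≤ M, ∀ x ∈ Set.Icc (0 : ℝ) 1, ∀ y ∈ Set.Icc (0 : ℝ) 1,
        |(((Finset.range k).filter (fun i => (z i).1 < x ∧ (z i).2 < y)).card : ℝ)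
          - k * x * y| ≤ C * (Real.log M / Real.log (Real.log M)) ^ 2) :
    ∃ C : ℝ, 0 < C ∧
    ∃ z : ℕ → ℝ × ℝ, (∀ i, (z i).1 ∈ Set.Ico (0 : ℝ) 1 ∧ (z i).2 ∈ Set.Ico (0 : ℝ) 1) ∧
      ∀ N : ℕ, 3 ≤ N → ∀ x ∈ Set.Icc (0 : ℝ) 1, ∀ y ∈ Set.Icc (0 : ℝ) 1,
        |(((Finset.range N).filter (fun i => (z i).1 < x ∧ (z i).2 < y)).card : ℝ)
          - N * x * y| ≤ C * (Real.log N / Real.log (Real.log N)) ^ 2 := by
  obtain ⟨C, hC, hall⟩ := hall_M
  choose Z hZ1 hZ2 using fun l : ℕ => hall (K_M l) (le_trans (by norm_num) (K_M_pos l))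
  refine ⟨C * 6400, by positivity, fun i => Z (K_blk i) (i - K_T (K_blk i)), fun i => hZ1 _ _, ?_⟩
  intro N hN x hx y hy
  set z : ℕ → ℝ × ℝ := fun i => Z (K_blk i) (i - K_T (K_blk i)) with hz
  -- splitting
  have split : ∀ l k : ℕ, k ≤ K_M l →
      (((Finset.range (K_T l + k)).filter (fun i => (z i).1 < x ∧ (z i).2 < y)).card : ℝ) =
      (((Finset.range (K_T l)).filter (fun i => (z i).1 < x ∧ (z i).2 < y)).card : ℝ) +
      (((Finset.range k).filter (fun i => (Z l i).1 < x ∧ (Z l i).2 < y)).card : ℝ) := by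
    intro l k hk
    rw [Finset.card_filter, Finset.card_filter, Finset.card_filter, Finset.sum_range_add]
    push_cast
    congr 1
    apply Finset.sum_congr rfl
    intro i hi
    have hi' := Finset.mem_range.mp hi
    have hb : K_blk (K_T l + i) = l := K_blk_eq (by omega) (by
      have : K_T (l + 1) = K_T l + K_M l := rfl
      omega)
    have hzi : z (K_T l + i) = Z l i := by
      rw [hz]
      simp only [hb, Nat.add_sub_cancel_left]
    rw [hzi]
  have step : ∀ l k : ℕ, k ≤ K_M l →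
      |(((Finset.range (K_T l + k)).filter (fun i => (z i).1 < x ∧ (z i).2 < y)).card : ℝ)
          - ((K_T l + k : ℕ) : ℝ) * x * y| ≤
      |(((Finset.range (K_T l)).filter (fun i => (z i).1 < x ∧ (z i).2 < y)).card : ℝ)
          - ((K_T l : ℕ) : ℝ) * x * y| + C * 25 * K_a l := by
    intro l k hk
    have h1 := hZ2 l k hk x hx y hy
    have h2 : C * (Real.log (K_M l) / Real.log (Real.log (K_M l))) ^ 2 ≤ C * (25 * K_a l) :=
      mul_le_mul_of_nonneg_left (K_gM l) hC.le
    rw [split l k hk]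
    push_cast
    have e : ∀ a b c d : ℝ, a + b - (c + d) * x * y = (a - c * x * y) + (b - d * x * y) := by
      intro a b c d; ring
    rw [e]
    refine (abs_add_le _ _).trans ?_
    have h3 := h1.trans h2
    linarith
  have hT : ∀ l : ℕ, |(((Finset.range (K_T l)).filter (fun i => (z i).1 < x ∧ (z i).2 < y)).card : ℝ)
          - ((K_T l : ℕ) : ℝ) * x * y| ≤ C * 25 * ∑ j ∈ Finset.range l, K_a j := by
    intro l
    induction l with
    | zero => simp [K_T]
    | succ l ih =>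
      have h1 := step l (K_M l) le_rfl
      have h2 : K_T (l + 1) = K_T l + K_M l := rfl
      rw [h2, Finset.sum_range_succ]
      refine h1.trans ?_
      rw [mul_add]
      linarith
  obtain ⟨j, h1, h2⟩ := K_exists N
  have h3 : K_T (j + 1) = K_T j + K_M j := rfl
  obtain ⟨k, rfl⟩ : ∃ k, N = K_T j + k := ⟨N - K_T j, by omega⟩
  have h4 := step j k (by omega)
  have h5 := hT j
  have h6 := K_sum j
  rw [Finset.sum_range_succ] at h6
  have h7 := K_final hN h1 h2
  have h8 : C * 25 * (∑ l ∈ Finset.range j, K_a l + K_a j) ≤ C * 25 * (4 * K_a j) :=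
    mul_le_mul_of_nonneg_left h6 (by positivity)
  have h9 : C * 25 * (4 * K_a j) ≤ C * 25 * (4 * (64 * (Real.log (K_T j + k : ℕ) / Real.log (Real.log (K_T j + k : ℕ))) ^ 2)) := by
    apply mul_le_mul_of_nonneg_left _ (by positivity)
    linarith
  calc _ ≤ C * 25 * (∑ l ∈ Finset.range j, K_a l + K_a j) := by
        rw [mul_add]; linarith
    _ ≤ _ := h8.trans h9
    _ = C * 6400 * (Real.log (K_T j + k : ℕ) / Real.log (Real.log (K_T j + k : ℕ))) ^ 2 := by ring

end Pool.Agent.helper82.Disc
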